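import Pool.Agent.W97.KE.Stm

/-! Project KE, part REAL: the ring `(Z/p^2)[T]/(pT, T^2)` as a quotient of the Iwasawa algebra. -/

set_option autoImplicit false

namespace Pool.Agent.W138.KE

open Pool.Agent.W97.KE

section

variable (p : ℕ) [hp : Fact p.Prime]

/-- reduction modulo `p` -/
noncomputable def red : ZMod (p ^ 2) →+* ZMod p :=
  ZMod.castHom (dvd_pow_self p two_ne_zero) (ZMod p)

/-- first map to `Z/p` -/
noncomputable def f1 : ZMod (p ^ 2) × TrivSqZeroExt (ZMod p) (ZMod p) →+* ZMod p :=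
  (red p).comp (RingHom.fst _ _)

/-- second map to `Z/p` -/
noncomputable def f2 : ZMod (p ^ 2) × TrivSqZeroExt (ZMod p) (ZMod p) →+* ZMod p :=
  (TrivSqZeroExt.fstHom (ZMod p) (ZMod p) (ZMod p) :
    TrivSqZeroExt (ZMod p) (ZMod p) →+* ZMod p).comp (RingHom.snd _ _)

/-- the ring -/
abbrev SS : Type := ↥(RingHom.eqLocus (f1 p) (f2 p))

variable {p}

lemma mem_iff (x : ZMod (p ^ 2) × TrivSqZeroExt (ZMod p) (ZMod p)) :
    x ∈ RingHom.eqLocus (f1 p) (f2 p) ↔ red p x.1 = x.2.fst := Iff.rfl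

/-- the elements of the ring -/
noncomputable def mkS (a : ZMod (p ^ 2)) (c : ZMod p) : SS p :=
  ⟨(a, TrivSqZeroExt.inl (red p a) + TrivSqZeroExt.inr c), by rw [mem_iff]; simp⟩

lemma mkS_1 (a : ZMod (p ^ 2)) (c : ZMod p) : (mkS a c).1.1 = a := rfl

lemma mkS_2 (a : ZMod (p ^ 2)) (c : ZMod p) : (mkS a c).1.2.snd = c := by simp [mkS]

lemma mkS_f (a : ZMod (p ^ 2)) (c : ZMod p) : (mkS a c).1.2.fst = red p a := by simp [mkS]

lemma ext' {s t : SS p} (h1 : s.1.1 = t.1.1) (h2 : s.1.2.snd = t.1.2.snd) : s = t := by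
  apply Subtype.ext
  apply Prod.ext h1
  apply TrivSqZeroExt.ext _ h2
  rw [← (mem_iff s.1).1 s.2, ← (mem_iff t.1).1 t.2, h1]

lemma eta (s : SS p) : s = mkS s.1.1 s.1.2.snd := ext' rfl (by rw [mkS_2])

lemma mkS_add (a b : ZMod (p ^ 2)) (c d : ZMod p) : mkS a c + mkS b d = mkS (a + b) (c + d) := by
  apply ext'
  · rfl
  · rw [mkS_2]
    show ((mkS a c).1.2 + (mkS b d).1.2).snd = _
    rw [TrivSqZeroExt.snd_add, mkS_2, mkS_2]

lemma mkS_mul (a b : ZMod (p ^ 2)) (c d : ZMod p) :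
    mkS a c * mkS b d = mkS (a * b) (red p a * d + red p b * c) := by
  apply ext'
  · rfl
  · rw [mkS_2]
    show ((mkS a c).1.2 * (mkS b d).1.2).snd = _
    rw [TrivSqZeroExt.snd_mul, mkS_2, mkS_2, mkS_f, mkS_f]
    simp [mul_comm]

lemma mkS_one : (1 : SS p) = mkS 1 0 := by
  apply ext'
  · rfl
  · rw [mkS_2]
    show (1 : TrivSqZeroExt (ZMod p) (ZMod p)).snd = 0
    simp

lemma mkS_zero : (0 : SS p) = mkS 0 0 := by
  apply ext'
  · rfl
  · rw [mkS_2]
    show (0 : TrivSqZeroExt (ZMod p) (ZMod p)).snd = 0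
    simp

lemma mkS_natCast (n : ℕ) : (n : SS p) = mkS n 0 := by
  induction n with
  | zero => rw [Nat.cast_zero, Nat.cast_zero, mkS_zero]
  | succ n ih => rw [Nat.cast_succ, Nat.cast_succ, ih, mkS_one, mkS_add, add_zero]

lemma mkS_inj {a b : ZMod (p ^ 2)} {c d : ZMod p} (h : mkS a c = mkS b d) : a = b ∧ c = d := by
  constructor
  · rw [← mkS_1 a c, h, mkS_1]
  · rw [← mkS_2 a c, h, mkS_2]

lemma mkS_sum {ι : Type} (s : Finset ι) (a : ι → ZMod (p ^ 2)) (c : ι → ZMod p) :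
    ∑ i ∈ s, mkS (a i) (c i) = mkS (∑ i ∈ s, a i) (∑ i ∈ s, c i) := by
  classical
  induction s using Finset.induction_on with
  | empty => simp [mkS_zero]
  | insert i s hi ih => rw [Finset.sum_insert hi, Finset.sum_insert hi, Finset.sum_insert hi, ih, mkS_add]

lemma mkS_val (a : ZMod (p ^ 2)) (c : ZMod p) :
    mkS a c = ((a.val : ℕ) : SS p) + ((c.val : ℕ) : SS p) * mkS 0 1 := by
  have : NeZero p := ⟨hp.1.ne_zero⟩
  have : NeZero (p ^ 2) := ⟨pow_ne_zero 2 hp.1.ne_zero⟩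
  rw [mkS_natCast, mkS_natCast, mkS_mul, mkS_add, ZMod.natCast_zmod_val, map_natCast,
    ZMod.natCast_zmod_val]
  simp

lemma red_toZModPow (x : ℤ_[p]) : red p (PadicInt.toZModPow 2 x) = PadicInt.toZMod x := by
  have h := PadicInt.appr_spec 2 x
  rw [Ideal.mem_span_singleton] at h
  obtain ⟨y, hy⟩ := h
  have hx : x = (x.appr 2 : ℤ_[p]) + (p : ℤ_[p]) ^ 2 * y := by rw [← hy]; ring
  rw [hx]
  simp only [map_add, map_mul, map_pow, map_natCast]
  simp

lemma isUnit_or (s : SS p) : IsUnit s ∨ ∃ a b : SS p, s = a * mkS (p : ZMod (p ^ 2)) 0 + b * mkS 0 1 := by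
  have : NeZero p := ⟨hp.1.ne_zero⟩
  have : NeZero (p ^ 2) := ⟨pow_ne_zero 2 hp.1.ne_zero⟩
  rw [eta s]
  set a := s.1.1
  set c := s.1.2.snd
  by_cases h : red p a = 0
  · right
    have h1 : ((a.val : ℕ) : ZMod p) = 0 := by
      rw [← h]
      conv_rhs => rw [← ZMod.natCast_zmod_val a]
      rw [map_natCast]
    rw [ZMod.natCast_eq_zero_iff] at h1
    obtain ⟨k, hk⟩ := h1
    refine ⟨mkS (k : ZMod (p ^ 2)) 0, mkS ((c.val : ℕ) : ZMod (p ^ 2)) 0, ?_⟩
    rw [mkS_mul, mkS_mul, mkS_add, map_natCast, map_natCast, map_natCast, ZMod.natCast_zmod_val]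
    have h2 : a = (k : ZMod (p ^ 2)) * (p : ZMod (p ^ 2)) := by
      conv_lhs => rw [← ZMod.natCast_zmod_val a, hk]
      push_cast
      ring
    rw [← h2]
    simp
  · left
    have h1 : IsUnit a := by
      rw [← ZMod.natCast_zmod_val a, ZMod.isUnit_iff_coprime]
      apply Nat.Coprime.pow_right
      rw [Nat.coprime_comm, Nat.Prime.coprime_iff_not_dvd hp.1]
      intro hd
      apply h
      rw [← ZMod.natCast_zmod_val a, map_natCast]
      exact (ZMod.natCast_eq_zero_iff _ _).2 hd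
    obtain ⟨b, hb⟩ := h1.exists_right_inv
    have hr : red p a * red p b = 1 := by rw [← map_mul, hb, map_one]
    apply IsUnit.of_mul_eq_one (mkS b (-(red p b) ^ 2 * c))
    rw [mkS_mul, hb, mkS_one]
    congr 1
    linear_combination (-(red p b) * c) * hr

end

theorem s_real : S_REAL := by
  intro p hp l hl hpl lam hlam ⟨u₀, hu₀⟩
  have : NeZero p := ⟨hp.1.ne_zero⟩
  have : NeZero (l * p ^ (1 + 1)) := ⟨mul_ne_zero (by omega) (pow_ne_zero _ hp.1.ne_zero)⟩
  have : NeZero (1 * p ^ (1 + 1)) := ⟨mul_ne_zero one_ne_zero (pow_ne_zero _ hp.1.ne_zero)⟩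
  have hlam1 : lam 1 = 0 := by
    have := hlam 1 1
    rw [mul_one] at this
    exact left_eq_add.1 this
  let g : (ZMod (l * p ^ (1 + 1)))ˣ →* SS p :=
    { toFun := fun u => mkS 1 (lam (prl p l u))
      map_one' := by
        show mkS 1 (lam (prl p l 1)) = 1
        rw [map_one, hlam1, mkS_one]
      map_mul' := fun u v => by
        show mkS 1 (lam (prl p l (u * v))) = mkS 1 (lam (prl p l u)) * mkS 1 (lam (prl p l v))
        rw [map_mul, hlam, mkS_mul, map_one]
        congr 1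
        · ring
        · ring }
  let f : ℤ_[p] →+* SS p :=
    { toFun := fun x => mkS (PadicInt.toZModPow 2 x) 0
      map_one' := by
        show mkS (PadicInt.toZModPow 2 1) 0 = 1
        rw [map_one, mkS_one]
      map_mul' := fun x y => by
        show mkS (PadicInt.toZModPow 2 (x * y)) 0 =
          mkS (PadicInt.toZModPow 2 x) 0 * mkS (PadicInt.toZModPow 2 y) 0
        rw [map_mul, mkS_mul, mul_zero, mul_zero, add_zero]
      map_zero' := by
        show mkS (PadicInt.toZModPow 2 0) 0 = 0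
        rw [map_zero, mkS_zero]
      map_add' := fun x y => by
        show mkS (PadicInt.toZModPow 2 (x + y)) 0 =
          mkS (PadicInt.toZModPow 2 x) 0 + mkS (PadicInt.toZModPow 2 y) 0
        rw [map_add, mkS_add, add_zero] }
  let φ : Rn p l 1 →+* SS p := MonoidAlgebra.liftNCRingHom f g (fun _ _ => Commute.all _ _)
  let ρ : Rm p l →+* SS p := φ.comp ((Pi.evalRingHom (fun n => Rn p l n) 1).comp (Rm p l).subtype)
  have hφ : ∀ z : Rn p l 1, φ z = mkS (∑ u, PadicInt.toZModPow 2 (z.coeff u))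
      (∑ u, lam (prl p l u) * PadicInt.toZMod (z.coeff u)) := by
    intro z
    conv_lhs => rw [← MonoidAlgebra.sum_coeff_single z]
    rw [Finsupp.sum_fintype _ _ (fun u => by simp), map_sum, ← mkS_sum]
    apply Finset.sum_congr rfl
    intro u _
    show MonoidAlgebra.liftNCRingHom f g (fun _ _ => Commute.all _ _) (MonoidAlgebra.single u (z.coeff u)) = _
    rw [MonoidAlgebra.liftNCRingHom_single]
    show mkS (PadicInt.toZModPow 2 (z.coeff u)) 0 * mkS 1 (lam (prl p l u)) = _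
    rw [mkS_mul, red_toZModPow]
    congr 1
    · ring
    · ring
  have hρ : ∀ x : Rm p l, ρ x = mkS (∑ u, PadicInt.toZModPow 2 ((x.1 1).coeff u))
      (∑ u, lam (prl p l u) * PadicInt.toZMod ((x.1 1).coeff u)) := fun x => hφ (x.1 1)
  -- the element with image `1 + lam u₀ T`
  have hcop : Nat.Coprime l (p ^ (1 + 1)) := by
    apply Nat.Coprime.pow_right
    rw [Nat.coprime_comm]
    exact (Nat.Prime.coprime_iff_not_dvd hp.1).2 hpl
  obtain ⟨N, hN1, hN2⟩ := Nat.chineseRemainder hcop 1 (u₀ : ZMod (1 * p ^ (1 + 1))).val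
  have hNl : Nat.Coprime N l := by
    have := hN1.gcd_eq
    rw [Nat.gcd_one_left] at this
    exact this
  have hNp : Nat.Coprime N p := by
    have h1 := Nat.Coprime.coprime_dvd_right (dvd_mul_left _ _) (ZMod.val_coe_unit_coprime u₀)
    have h2 := hN2.gcd_eq
    have h3 : Nat.Coprime N (p ^ (1 + 1)) := by
      unfold Nat.Coprime
      rw [h2]
      exact h1
    exact Nat.Coprime.coprime_dvd_right (dvd_pow_self p (by norm_num)) h3
  have hNn : ∀ n : ℕ, Nat.Coprime N (l * p ^ (n + 1)) := fun n =>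
    Nat.Coprime.mul_right hNl (Nat.Coprime.pow_right _ hNp)
  have hunit : ∀ (n : ℕ) (hd : l * p ^ (n + 1) ∣ l * p ^ (n + 1 + 1)),
      ZMod.unitsMap hd (ZMod.unitOfCoprime N (hNn (n + 1))) = ZMod.unitOfCoprime N (hNn n) := by
    intro n hd
    apply Units.ext
    rw [ZMod.unitsMap_def, ZMod.coe_unitOfCoprime]
    show ZMod.castHom hd _ (ZMod.unitOfCoprime N (hNn (n + 1)) : ZMod (l * p ^ (n + 1 + 1))) = _
    rw [ZMod.coe_unitOfCoprime, map_natCast]
  let σ : Rm p l := ⟨fun n => MonoidAlgebra.single (ZMod.unitOfCoprime N (hNn n)) 1, by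
    intro n
    show MonoidAlgebra.mapDomain (ZMod.unitsMap _) (MonoidAlgebra.single _ _) = _
    rw [MonoidAlgebra.mapDomain_single, hunit]⟩
  have hprl : prl p l (ZMod.unitOfCoprime N (hNn 1)) = u₀ := by
    apply Units.ext
    unfold prl
    rw [ZMod.unitsMap_def]
    show ZMod.castHom (Nat.mul_dvd_mul_right (one_dvd l) (p ^ (1 + 1))) _
      (ZMod.unitOfCoprime N (hNn 1) : ZMod (l * p ^ (1 + 1))) = _
    rw [ZMod.coe_unitOfCoprime, map_natCast]
    conv_rhs => rw [← ZMod.natCast_zmod_val (u₀ : ZMod (1 * p ^ (1 + 1)))]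
    rw [ZMod.natCast_eq_natCast_iff]
    have key : ∀ v m m' : ℕ, m' = m → N ≡ v [MOD m] → N ≡ v [MOD m'] := by
      rintro v m _ rfl h
      exact h
    exact key _ _ _ (one_mul _) hN2
  have hσ : ρ σ = mkS 1 (lam u₀) := by
    show MonoidAlgebra.liftNCRingHom f g (fun _ _ => Commute.all _ _) (MonoidAlgebra.single _ _) = _
    rw [MonoidAlgebra.liftNCRingHom_single, map_one, one_mul]
    show mkS 1 (lam (prl p l (ZMod.unitOfCoprime N (hNn 1)))) = _
    rw [hprl]
  let t : Rm p l := ((((lam u₀)⁻¹).val : ℕ) : Rm p l) * (σ - 1)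
  have ht : ρ t = mkS 0 1 := by
    have h1 : ρ (σ - 1) = mkS 0 (lam u₀) := by
      rw [map_sub, map_one, hσ, sub_eq_iff_eq_add, mkS_one, mkS_add, zero_add, add_zero]
    show ρ (((((lam u₀)⁻¹).val : ℕ) : Rm p l) * (σ - 1)) = _
    rw [map_mul, h1, map_natCast, mkS_natCast, mkS_mul, map_natCast, ZMod.natCast_zmod_val,
      inv_mul_cancel₀ hu₀]
    simp
  refine ⟨SS p, inferInstance, mkS (p : ZMod (p ^ 2)) 0, mkS 0 1, ρ, ?_, ?_, ?_, ?_, ?_, ?_,
    isUnit_or, mkS_natCast p, ?_⟩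
  · intro s
    refine ⟨((s.1.1.val : ℕ) : Rm p l) + ((s.1.2.snd.val : ℕ) : Rm p l) * t, ?_⟩
    rw [map_add, map_mul, map_natCast, map_natCast, ht, ← mkS_val]
    exact (eta s).symm
  · rw [mkS_mul, mkS_zero]
    congr 1
    · rw [← sq, ← Nat.cast_pow, ZMod.natCast_self]
    · simp
  · rw [mkS_mul, mkS_zero, map_natCast, ZMod.natCast_self]
    simp
  · rw [mkS_mul, mkS_zero]
    simp
  · intro h
    rw [mkS_zero] at h
    have h1 := (mkS_inj h).1
    rw [ZMod.natCast_eq_zero_iff] at h1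
    have h2 := Nat.le_of_dvd hp.1.pos h1
    have h3 := hp.1.one_lt
    nlinarith
  · intro s h
    rw [eta s, mkS_mul, map_natCast, ZMod.natCast_self] at h
    have h1 := (mkS_inj h).2
    rw [mul_zero, zero_mul, add_zero] at h1
    have : Nontrivial (ZMod p) := ZMod.nontrivial_iff.2 hp.1.ne_one
    exact one_ne_zero h1
  · intro x
    rw [hρ, finsum_eq_sum_of_fintype, finsum_eq_sum_of_fintype]
    exact mkS_val _ _

end Pool.Agent.W138.KE
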